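import Pool.Agent.Q157.LD.Stm

/-! LD-up and LD-down of project LD (MP_81bbc5_al). -/

set_option autoImplicit false

namespace Pool.Agent.Q94.LD

open Pool.Agent.Q157.LD
open Subgroup hiding lowerCentralSeries_zero lowerCentralSeries_succ
open scoped commutatorElement

/-- finitely many homomorphisms from a free group of finite rank to a finite group -/
theorem finite_hom {ι Q : Type} [Finite ι] [Group Q] [Finite Q] : Finite (FreeGroup ι →* Q) :=
  Finite.of_equiv (ι → Q) FreeGroup.lift

theorem surj_of_gen {ι H : Type} [Group H] {t : ι → H} (ht : Gen t) :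
    Function.Surjective (FreeGroup.lift t) := by
  rw [← MonoidHom.range_eq_top, FreeGroup.range_lift_eq_closure]
  exact ht

theorem core_lcs {G : Type} [Group G] (h : Group.IsVirtuallyNilpotent G) :
    ∃ N : Subgroup G, N.Normal ∧ N.FiniteIndex ∧ ∃ c, N.lowerCentralSeries c = ⊥ := by
  obtain ⟨N, h1, h2⟩ := h
  obtain ⟨c, hc⟩ := (isNilpotent_iff_lowerCentralSeries N).1 h1
  refine ⟨N.normalCore, inferInstance, inferInstance, c, ?_⟩
  have := lowerCentralSeries_mono c N.normalCore_le
  rw [eq_bot_iff, ← hc]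
  exact this

theorem map_fi {F H : Type} [Group F] [Group H] (f : F →* H) (hf : Function.Surjective f)
    (V : Subgroup F) [hV : V.FiniteIndex] : (V.map f).FiniteIndex := by
  refine ⟨fun h => hV.index_ne_zero ?_⟩
  have := V.index_map_dvd hf
  rw [h] at this
  exact Nat.eq_zero_of_zero_dvd this

theorem up : S_up := by
  intro G H _ _ hG hGH
  obtain ⟨N, hN, hNf, c, hc⟩ := core_lcs hG
  obtain ⟨ι, _, t, ht, hW⟩ := hGH
  have hfin : Finite (FreeGroup ι →* G ⧸ N) := finite_hom
  by_cases hall : ∃ α : FreeGroup ι →* G ⧸ N, ∀ w ∈ (α.ker).lowerCentralSeries c, FreeGroup.lift t w = 1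
  · obtain ⟨α, hα⟩ := hall
    have hfi : α.ker.FiniteIndex := inferInstance
    refine ⟨α.ker.map (FreeGroup.lift t), ?_, map_fi _ (surj_of_gen ht) _⟩
    apply isNilpotent_of_lowerCentralSeries_eq_bot (n := c)
    rw [← map_lowerCentralSeries, eq_bot_iff]
    rintro _ ⟨w, hw, rfl⟩
    rw [mem_bot]
    exact hα w hw
  · exfalso
    push Not at hall
    choose w hw1 hw2 using hall
    obtain ⟨s, hs, hsW⟩ := hW (Set.finite_range w).toFinset
    let α : FreeGroup ι →* G ⧸ N := (QuotientGroup.mk' N).comp (FreeGroup.lift s)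
    have h1 : FreeGroup.lift s (w α) = 1 := by
      have h2 : FreeGroup.lift s (w α) ∈ (α.ker.lowerCentralSeries c).map (FreeGroup.lift s) :=
        ⟨w α, hw1 α, rfl⟩
      rw [map_lowerCentralSeries] at h2
      have h3 : α.ker.map (FreeGroup.lift s) ≤ N := by
        rintro _ ⟨x, hx, rfl⟩
        have : (QuotientGroup.mk' N) (FreeGroup.lift s x) = 1 := hx
        rwa [QuotientGroup.mk'_apply, QuotientGroup.eq_one_iff] at this
      have h4 : FreeGroup.lift s (w α) ∈ N.lowerCentralSeries c := lowerCentralSeries_mono c h3 h2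
      rw [hc] at h4
      exact h4
    have h5 := (hsW (w α) (by simp)).1 h1
    exact hw2 α h5

/-- simple commutators -/
def C {K : Type} [Group K] (X : Set K) : ℕ → Set K
  | 0 => X
  | i + 1 => {g | ∃ a ∈ C X i, ∃ x ∈ X, g = ⁅a, x⁆}

theorem C_finite {K : Type} [Group K] {X : Set K} (hX : X.Finite) : ∀ i, (C X i).Finite
  | 0 => hX
  | i + 1 => by
    have h := (C_finite hX i).image2 (fun a x => ⁅a, x⁆) hX
    refine h.subset ?_
    rintro g ⟨a, ha, x, hx, rfl⟩
    exact ⟨a, ha, x, hx, rfl⟩

theorem C_mem {K : Type} [Group K] {X : Set K} : ∀ i, ∀ g ∈ C X i,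
    g ∈ (⊤ : Subgroup K).lowerCentralSeries i
  | 0 => fun g _ => mem_top g
  | i + 1 => by
    rintro g ⟨a, ha, x, hx, rfl⟩
    exact commutator_mem_commutator (C_mem i a ha) (mem_top x)

theorem lcs_le {K : Type} [Group K] {X : Set K} (hX : closure X = ⊤) :
    ∀ i, (⊤ : Subgroup K).lowerCentralSeries i ≤ normalClosure (C X i)
  | 0 => by
    rw [Subgroup.lowerCentralSeries_zero, ← hX]
    exact closure_le_normalClosure
  | i + 1 => by
    rw [Subgroup.lowerCentralSeries_succ, commutator_le]
    intro g hg h _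
    set M := normalClosure (C X (i + 1)) with hM
    have h1 : normalClosure (C X i) ≤ (center (K ⧸ M)).comap (QuotientGroup.mk' M) := by
      apply normalClosure_le_normal
      intro a ha
      change QuotientGroup.mk' M a ∈ center (K ⧸ M)
      rw [mem_center_iff]
      intro y
      obtain ⟨h, rfl⟩ := QuotientGroup.mk'_surjective M y
      have hh : h ∈ closure X := by rw [hX]; exact mem_top h
      change Commute (QuotientGroup.mk' M h) (QuotientGroup.mk' M a)
      induction hh using closure_induction with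
      | mem x hx =>
        have h2 : ⁅a, x⁆ ∈ M := subset_normalClosure ⟨a, ha, x, hx, rfl⟩
        have h3 : QuotientGroup.mk' M ⁅a, x⁆ = 1 := by
          rw [QuotientGroup.mk'_apply, QuotientGroup.eq_one_iff]; exact h2
        rw [map_commutatorElement, commutatorElement_eq_one_iff_commute] at h3
        exact h3.symm
      | one => rw [map_one]; exact Commute.one_left _
      | mul x y _ _ h1 h2 => rw [map_mul]; exact h1.mul_left h2
      | inv x _ h1 => rw [map_inv]; exact h1.inv_left
    have h2 : QuotientGroup.mk' M g ∈ center (K ⧸ M) := h1 (lcs_le hX i hg)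
    rw [mem_center_iff] at h2
    have h3 : QuotientGroup.mk' M ⁅g, h⁆ = 1 := by
      rw [map_commutatorElement, commutatorElement_eq_one_iff_commute]
      exact (h2 (QuotientGroup.mk' M h)).symm
    rwa [QuotientGroup.mk'_apply, QuotientGroup.eq_one_iff] at h3

theorem down : S_down := by
  intro G H _ _ hH hGH
  obtain ⟨N, hN, hNf, c, hc⟩ := core_lcs hH
  obtain ⟨ι, _, t, ht, hW⟩ := hGH
  let V : Subgroup (FreeGroup ι) := N.comap (FreeGroup.lift t)
  have hV : V.FiniteIndex := by
    refine ⟨?_⟩
    have := N.index_comap_of_surjective (surj_of_gen ht)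
    change (N.comap (FreeGroup.lift t)).index ≠ 0
    rw [this]
    exact hNf.index_ne_zero
  have hfg : Group.FG V := Subgroup.fg_of_index_ne_zero V
  obtain ⟨X, hX⟩ := hfg.out
  have hfin := C_finite (X := (X : Set V)) X.finite_toSet c
  obtain ⟨s, hs, hsW⟩ := hW (hfin.toFinset.map ⟨V.subtype, V.subtype_injective⟩)
  refine ⟨V.map (FreeGroup.lift s), ?_, map_fi _ (surj_of_gen hs) _⟩
  let f : V →* G := (FreeGroup.lift s).comp V.subtype
  have hker : normalClosure (C (X : Set V) c) ≤ f.ker := by
    apply normalClosure_le_normal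
    intro a ha
    change FreeGroup.lift s (V.subtype a) = 1
    refine (hsW _ ?_).2 ?_
    · rw [Finset.mem_map]
      exact ⟨a, by simpa using ha, rfl⟩
    · have h1 : FreeGroup.lift t (V.subtype a) ∈
          ((⊤ : Subgroup V).lowerCentralSeries c).map ((FreeGroup.lift t).comp V.subtype) :=
        ⟨a, C_mem c a ha, rfl⟩
      rw [map_lowerCentralSeries] at h1
      have h3 : (⊤ : Subgroup V).map ((FreeGroup.lift t).comp V.subtype) ≤ N := by
        rintro _ ⟨x, _, rfl⟩
        exact x.2
      have h4 : FreeGroup.lift t (V.subtype a) ∈ N.lowerCentralSeries c :=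
        lowerCentralSeries_mono c h3 h1
      rw [hc] at h4
      exact h4
  have h5 : V.map (FreeGroup.lift s) = (⊤ : Subgroup V).map f := by
    ext g
    constructor
    · rintro ⟨x, hx, rfl⟩
      exact ⟨⟨x, hx⟩, mem_top _, rfl⟩
    · rintro ⟨x, _, rfl⟩
      exact ⟨x.1, x.2, rfl⟩
  rw [h5]
  apply isNilpotent_of_lowerCentralSeries_eq_bot (n := c)
  rw [← map_lowerCentralSeries, eq_bot_iff]
  rintro _ ⟨w, hw, rfl⟩
  rw [mem_bot]
  exact hker (lcs_le hX c hw)

end Pool.Agent.Q94.LD
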